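import Pool.Agent.helper28.BQ.SpecC

/-!
bq:FB: Tate characters of all products of Fermat varieties, all degrees and dimensions, in terms of the
reduction of families of CM types.
-/

open scoped BigOperators ComplexConjugate Matrix
open MeasureTheory NumberField

namespace BQ

theorem FB_psum_succ {m k : ℕ} (a : Fin k → ZMod m) (j : Fin k) :
    psum a ((j : ℕ) + 1) = psum a j + a j := by
  unfold psum
  have e : Finset.univ.filter (fun i : Fin k => (i : ℕ) < (j : ℕ) + 1) =
      insert j (Finset.univ.filter (fun i : Fin k => (i : ℕ) < (j : ℕ))) := by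
    ext i
    simp only [Finset.mem_filter, Finset.mem_univ, true_and, Finset.mem_insert]
    constructor
    · intro h
      rcases Nat.lt_succ_iff_lt_or_eq.mp h with h1 | h1
      · exact Or.inr h1
      · exact Or.inl (Fin.ext h1)
    · rintro (h | h)
      · rw [h]; exact Nat.lt_succ_self _
      · exact Nat.lt_succ_of_lt h
  rw [e, Finset.sum_insert (by simp), add_comm]

theorem FB_mem_types {m : ℕ} [NeZero m] {k : ℕ} {a : Fin k → ZMod m} {P : Set (CyclotomicField m ℚ →+* ℂ)}
    (hP : P ∈ types m a) : ∃ j : Fin k, psum a j ≠ 0 ∧ psum a ((j : ℕ) + 1) ≠ 0 ∧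
      ftype m (psum a j) (a j) (-(psum a ((j : ℕ) + 1))) = P := by
  unfold types at hP
  rw [Multiset.mem_map] at hP
  obtain ⟨j, hj, rfl⟩ := hP
  rw [Finset.mem_val, Finset.mem_filter] at hj
  exact ⟨j, hj.2.1, hj.2.2, rfl⟩

/-- for `m ≤ 2` there are no types -/
theorem FB_types_small {m : ℕ} [NeZero m] (hm : m ≤ 2) {k : ℕ} (a : Fin k → ZMod m) (ha : ∀ i, a i ≠ 0) :
    types m a = 0 := by
  have key : ∀ x y : ZMod m, x ≠ 0 → y ≠ 0 → x + y = 0 := by
    have hm0 : m ≠ 0 := NeZero.ne m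
    interval_cases m
    · exact absurd rfl hm0
    · intro x y hx
      exact absurd (Subsingleton.elim x 0) hx
    · decide
  unfold types
  rw [Multiset.map_eq_zero, Finset.val_eq_zero, Finset.filter_eq_empty_iff]
  intro j _ hj
  apply hj.2
  rw [FB_psum_succ]
  exact key _ _ hj.1 (ha j)

theorem FB (hTYP : TYP_stmt) (hFTC : FTC_stmt) (hFA : FA_stmt) : FB_stmt := by
  intro hEXC m hm k s π a
  have hm0 : 0 < m := Nat.pos_of_ne_zero (NeZero.ne m)
  rw [Pool.Agent.helper76.FV.isTateChar_iff m hm0 π a]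
  unfold Pool.Agent.helper76.FV.BlockTate Pool.Agent.helper76.FV.TateM Pool.Agent.helper76.FV.BlockZero
  have main : ∀ (_ : ∀ i, a i ≠ 0) (_ : ∑ i, a i = 0),
      ((∀ t : (ZMod m)ˣ, 2 * ∑ i, ((t : ZMod m) * a i).val = k * m) ↔
        Red (CyclotomicField m ℚ) (types m a)) := by
    intro ha hs
    rw [hTYP m k a ha hs]
    rcases Nat.lt_or_ge 2 m with h2 | h2
    · have : IsCMField (CyclotomicField m ℚ) :=
        IsCyclotomicExtension.Rat.isCMField (CyclotomicField m ℚ) (S := {m}) ⟨m, rfl, h2⟩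
      refine hFA hEXC (CyclotomicField m ℚ) (types m a) ?_
      intro P hP
      obtain ⟨j, h1, h3, rfl⟩ := FB_mem_types hP
      refine hFTC m _ _ _ h1 (ha j) (neg_ne_zero.mpr h3) ?_
      rw [FB_psum_succ]
      ring
    · rw [FB_types_small h2 a ha]
      refine ⟨fun _ => Red.zero, fun _ f => ?_⟩
      simp
  constructor
  · rintro ⟨hb, ha, ht⟩
    exact ⟨ha, hb, (main ha (Pool.Agent.helper76.FV.sum_eq_zero_of_blocks π a hb)).mp ht⟩
  · rintro ⟨ha, hb, hr⟩
    exact ⟨hb, ha, (main ha (Pool.Agent.helper76.FV.sum_eq_zero_of_blocks π a hb)).mpr hr⟩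

end BQ
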