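import Mathlib
import Pool.Agent.helper76.BQ.TDefs
import Pool.Agent.helper76.BQ.BDefs
import Pool.Agent.helper76.BQ.BGood

/-!
bq:B7b (core part): the second order theta form is invariant up to a root of unity of bounded order; all
inputs of other modules are explicit hypotheses.
-/

open Matrix Complex

namespace Pool.Agent.helper76.BQ

/-! ### algebra of `dss` -/

theorem B7b_bil_sum {ι : Type*} (s : Finset ι) (D : ℂ) (c : ι → ℂ) (x : ι → Fin 3 → ℂ) (y : Fin 3 → ℂ) :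
    bil D (∑ i ∈ s, c i • x i) y = ∑ i ∈ s, c i * bil D (x i) y := by
  classical
  induction s using Finset.induction_on with
  | empty => simp [bil]
  | insert a s ha ih =>
    rw [Finset.sum_insert ha, Finset.sum_insert ha, ← ih]
    simp only [bil, Pi.add_apply, Pi.smul_apply, smul_eq_mul]
    ring

theorem B7b_dss_sum {ι : Type*} (s : Finset ι) (D : ℝ) (c : ι → ℂ) (x : ι → Fin 3 → ℂ) (z : Fin 2 → ℂ)
    (α : Fin 2) : dss D (∑ i ∈ s, c i • x i) z α = ∑ i ∈ s, c i * dss D (x i) z α := by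
  unfold dss
  rw [B7b_bil_sum, Finset.sum_apply]
  simp only [Pi.smul_apply, smul_eq_mul]
  rw [Finset.sum_mul, Finset.mul_sum, ← Finset.sum_add_distrib, Finset.sum_div]
  refine Finset.sum_congr rfl (fun i _ => ?_)
  ring

/-- the coefficient of the two-form -/
noncomputable def B7b_om (D : ℝ) (z : Fin 2 → ℂ) (x y : Fin 3 → ℂ) : ℂ :=
  dss D x z 0 * dss D y z 1 - dss D x z 1 * dss D y z 0

theorem B7b_om_sum {ι κ : Type*} (s : Finset ι) (t : Finset κ) (D : ℝ) (z : Fin 2 → ℂ) (a : ι → ℂ) (b : κ → ℂ)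
    (x : ι → Fin 3 → ℂ) (y : κ → Fin 3 → ℂ) :
    B7b_om D z (∑ i ∈ s, a i • x i) (∑ j ∈ t, b j • y j) =
      ∑ i ∈ s, ∑ j ∈ t, a i * b j * B7b_om D z (x i) (y j) := by
  unfold B7b_om
  rw [B7b_dss_sum, B7b_dss_sum, B7b_dss_sum, B7b_dss_sum, Finset.sum_mul_sum, Finset.sum_mul_sum,
    ← Finset.sum_sub_distrib]
  refine Finset.sum_congr rfl (fun i _ => ?_)
  rw [← Finset.sum_sub_distrib]
  refine Finset.sum_congr rfl (fun j _ => ?_)
  ring

theorem B7b_basis (x : Fin 3 → ℂ) : x = ∑ a : Fin 3, x a • (Pi.single a (1 : ℂ) : Fin 3 → ℂ) := by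
  funext i
  rw [Finset.sum_apply]
  simp [Pi.single_apply]

theorem B7b_om_coord (D : ℝ) (z : Fin 2 → ℂ) (x y : Fin 3 → ℂ) :
    B7b_om D z x y = ∑ a : Fin 3, ∑ a' : Fin 3, x a * y a' *
      B7b_om D z (Pi.single a (1 : ℂ)) (Pi.single a' (1 : ℂ)) := by
  conv_lhs => rw [B7b_basis x, B7b_basis y]
  rw [B7b_om_sum]

/-- the mixed term vanishes -/
theorem B7b_mixed {g : ℕ} (D : ℝ) (z : Fin 2 → ℂ) (B : Matrix (Fin g) (Fin g) ℂ) (x y : Fin g → Fin 3 → ℂ)
    (h : ∀ a a' : Fin 3, ∑ i, ∑ j, B i j * (x i a * y j a') = 0) :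
    ∑ i, ∑ j, B i j * B7b_om D z (x i) (y j) = 0 := by
  have e : ∀ i j, B i j * B7b_om D z (x i) (y j) = ∑ a : Fin 3, ∑ a' : Fin 3,
      (B i j * (x i a * y j a')) * B7b_om D z (Pi.single a (1 : ℂ)) (Pi.single a' (1 : ℂ)) := by
    intro i j
    rw [B7b_om_coord, Finset.mul_sum]
    refine Finset.sum_congr rfl (fun a _ => ?_)
    rw [Finset.mul_sum]
    refine Finset.sum_congr rfl (fun a' _ => ?_)
    ring
  simp only [e]
  have e2 : ∀ i, ∑ j, ∑ a : Fin 3, ∑ a' : Fin 3,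
      (B i j * (x i a * y j a')) * B7b_om D z (Pi.single a (1 : ℂ)) (Pi.single a' (1 : ℂ)) =
      ∑ a : Fin 3, ∑ a' : Fin 3, ∑ j,
      (B i j * (x i a * y j a')) * B7b_om D z (Pi.single a (1 : ℂ)) (Pi.single a' (1 : ℂ)) := by
    intro i
    rw [Finset.sum_comm]
    refine Finset.sum_congr rfl (fun a _ => ?_)
    rw [Finset.sum_comm]
  simp only [e2]
  rw [Finset.sum_comm]
  refine Finset.sum_eq_zero (fun a _ => ?_)
  rw [Finset.sum_comm]
  refine Finset.sum_eq_zero (fun a' _ => ?_)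
  simp only [← Finset.sum_mul]
  rw [h a a', zero_mul]

/-- change of variables in the main term -/
theorem B7b_main {g : ℕ} (D : ℝ) (z : Fin 2 → ℂ) (E T : Matrix (Fin g) (Fin g) ℂ) (x y x' y' : Fin g → Fin 3 → ℂ)
    (hx : ∀ k, ∑ i, E i k • x i = x' k) (hy : ∀ k, ∑ i, E i k • y i = y' k) :
    ∑ i, ∑ j, (E * T * Eᵀ) i j * B7b_om D z (x i) (y j) = ∑ k, ∑ l, T k l * B7b_om D z (x' k) (y' l) := by
  have e1 : ∀ k l, T k l * B7b_om D z (x' k) (y' l) =
      ∑ i, ∑ j, (E i k * T k l * E j l) * B7b_om D z (x i) (y j) := by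
    intro k l
    rw [← hx k, ← hy l, B7b_om_sum, Finset.mul_sum]
    refine Finset.sum_congr rfl (fun i _ => ?_)
    rw [Finset.mul_sum]
    refine Finset.sum_congr rfl (fun j _ => ?_)
    ring
  have e2 : ∀ i j, (E * T * Eᵀ) i j = ∑ k, ∑ l, E i k * T k l * E j l := by
    intro i j
    rw [Matrix.mul_apply, Finset.sum_comm]
    refine Finset.sum_congr rfl (fun l _ => ?_)
    rw [Matrix.mul_apply, Finset.sum_mul]
    refine Finset.sum_congr rfl (fun k _ => ?_)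
    rw [Matrix.transpose_apply]
  simp only [e1, e2, Finset.sum_mul]
  calc ∑ i, ∑ j, ∑ k, ∑ l, E i k * T k l * E j l * B7b_om D z (x i) (y j)
      = ∑ i, ∑ k, ∑ j, ∑ l, E i k * T k l * E j l * B7b_om D z (x i) (y j) :=
        Finset.sum_congr rfl (fun i _ => Finset.sum_comm)
    _ = ∑ k, ∑ i, ∑ j, ∑ l, E i k * T k l * E j l * B7b_om D z (x i) (y j) := Finset.sum_comm
    _ = ∑ k, ∑ i, ∑ l, ∑ j, E i k * T k l * E j l * B7b_om D z (x i) (y j) :=
        Finset.sum_congr rfl (fun k _ => Finset.sum_congr rfl (fun i _ => Finset.sum_comm))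
    _ = ∑ k, ∑ l, ∑ i, ∑ j, E i k * T k l * E j l * B7b_om D z (x i) (y j) :=
        Finset.sum_congr rfl (fun k _ => Finset.sum_comm)

/-! ### topology -/

theorem B7b_ball_preconnected (D : ℝ) : IsPreconnected (Ball D) := by
  have hconv : Convex ℝ (Ball D) := by
    intro x hx y hy a b ha hb hab
    have hx' : ‖x 0‖ ^ 2 + ‖x 1‖ ^ 2 < D := hx
    have hy' : ‖y 0‖ ^ 2 + ‖y 1‖ ^ 2 < D := hy
    have key : ∀ i : Fin 2, ‖(a • x + b • y) i‖ ^ 2 ≤ a * ‖x i‖ ^ 2 + b * ‖y i‖ ^ 2 := by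
      intro i
      have h1 : ‖(a • x + b • y) i‖ ≤ a * ‖x i‖ + b * ‖y i‖ := by
        calc ‖(a • x + b • y) i‖ = ‖a • x i + b • y i‖ := rfl
          _ ≤ ‖a • x i‖ + ‖b • y i‖ := norm_add_le _ _
          _ = a * ‖x i‖ + b * ‖y i‖ := by
            rw [norm_smul, norm_smul, Real.norm_eq_abs, Real.norm_eq_abs, abs_of_nonneg ha, abs_of_nonneg hb]
      have h2 : ‖(a • x + b • y) i‖ ^ 2 ≤ (a * ‖x i‖ + b * ‖y i‖) ^ 2 :=
        pow_le_pow_left₀ (norm_nonneg _) h1 2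
      have h3 : (a * ‖x i‖ + b * ‖y i‖) ^ 2 ≤ a * ‖x i‖ ^ 2 + b * ‖y i‖ ^ 2 := by
        have hb' : b = 1 - a := by linarith
        subst hb'
        nlinarith [mul_nonneg ha hb, sq_nonneg (‖x i‖ - ‖y i‖),
          mul_nonneg (mul_nonneg ha hb) (sq_nonneg (‖x i‖ - ‖y i‖))]
      exact h2.trans h3
    show ‖(a • x + b • y) 0‖ ^ 2 + ‖(a • x + b • y) 1‖ ^ 2 < D
    have k0 := key 0
    have k1 := key 1
    rcases eq_or_lt_of_le ha with h0 | h0
    · rw [← h0] at k0 k1 hab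
      have hb1 : b = 1 := by linarith
      rw [hb1] at k0 k1
      rw [← h0, hb1]
      linarith
    · have h1 : a * (‖x 0‖ ^ 2 + ‖x 1‖ ^ 2) < a * D := by gcongr
      have h2 : b * (‖y 0‖ ^ 2 + ‖y 1‖ ^ 2) ≤ b * D := by gcongr
      have h3 : a * D + b * D = D := by rw [← add_mul, hab, one_mul]
      linarith
  exact hconv.isPreconnected

theorem B7b_continuous_lift : Continuous lift := by
  refine continuous_pi ?_
  intro i
  fin_cases i
  · exact continuous_apply 0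
  · exact continuous_apply 1
  · exact continuous_const

theorem B7b_continuous_mulVec (gm : Matrix (Fin 3) (Fin 3) ℂ) (i : Fin 3) :
    Continuous (fun z : Fin 2 → ℂ => (gm *ᵥ lift z) i) := by
  have h : Continuous (fun x : Fin 3 → ℂ => gm *ᵥ x) :=
    (Matrix.mulVecLin gm).continuous_of_finiteDimensional
  exact (continuous_apply i).comp (h.comp B7b_continuous_lift)

theorem B7b_continuous_nn (D : ℝ) : Continuous (nn D) := by
  unfold nn
  fun_prop

theorem B7b_continuousOn_mob (gm : Matrix (Fin 3) (Fin 3) ℂ) {s : Set (Fin 2 → ℂ)}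
    (h : ∀ z ∈ s, (gm *ᵥ lift z) 2 ≠ 0) : ContinuousOn (mob gm) s := by
  refine continuousOn_pi.mpr ?_
  intro α
  exact (B7b_continuous_mulVec gm _).continuousOn.div (B7b_continuous_mulVec gm 2).continuousOn h

end Pool.Agent.helper76.BQ
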