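import Mathlib
import Pool.Agent.helper76.BQ.TDefs

/-!
bq:T2b (core part, with the invertibility and symmetry facts of T2a as explicit hypotheses):
the algebra of the action of symplectic matrices on the Siegel space.
-/

open Matrix Complex

namespace Pool.Agent.helper76.BQ

section
variable {g : ℕ}

theorem T2b_toC_mul {R : Type*} [CommRing R] [Algebra R ℂ] (A B : Matrix (Fin g) (Fin g) R) :
    toC (A * B) = toC A * toC B := by
  unfold toC
  exact Matrix.map_mul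

theorem T2b_toC_add {R : Type*} [CommRing R] [Algebra R ℂ] (A B : Matrix (Fin g) (Fin g) R) :
    toC (A + B) = toC A + toC B := by
  unfold toC
  ext i j
  simp

theorem T2b_toC_sub {R : Type*} [CommRing R] [Algebra R ℂ] (A B : Matrix (Fin g) (Fin g) R) :
    toC (A - B) = toC A - toC B := by
  unfold toC
  ext i j
  simp

theorem T2b_toC_one {R : Type*} [CommRing R] [Algebra R ℂ] :
    toC (1 : Matrix (Fin g) (Fin g) R) = 1 := by
  unfold toC
  ext i j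
  by_cases h : i = j
  · subst h; simp
  · simp [h]

theorem T2b_toC_transpose {R : Type*} [CommRing R] [Algebra R ℂ] (A : Matrix (Fin g) (Fin g) R) :
    toC Aᵀ = (toC A)ᵀ := by
  unfold toC
  ext i j
  simp

theorem T2b_blocks {R : Type*} [CommRing R] (A B : Matrix (Fin g ⊕ Fin g) (Fin g ⊕ Fin g) R) :
    (A * B).toBlocks₁₁ = A.toBlocks₁₁ * B.toBlocks₁₁ + A.toBlocks₁₂ * B.toBlocks₂₁ ∧
    (A * B).toBlocks₁₂ = A.toBlocks₁₁ * B.toBlocks₁₂ + A.toBlocks₁₂ * B.toBlocks₂₂ ∧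
    (A * B).toBlocks₂₁ = A.toBlocks₂₁ * B.toBlocks₁₁ + A.toBlocks₂₂ * B.toBlocks₂₁ ∧
    (A * B).toBlocks₂₂ = A.toBlocks₂₁ * B.toBlocks₁₂ + A.toBlocks₂₂ * B.toBlocks₂₂ := by
  have h : A * B = fromBlocks (A.toBlocks₁₁ * B.toBlocks₁₁ + A.toBlocks₁₂ * B.toBlocks₂₁)
      (A.toBlocks₁₁ * B.toBlocks₁₂ + A.toBlocks₁₂ * B.toBlocks₂₂)
      (A.toBlocks₂₁ * B.toBlocks₁₁ + A.toBlocks₂₂ * B.toBlocks₂₁)
      (A.toBlocks₂₁ * B.toBlocks₁₂ + A.toBlocks₂₂ * B.toBlocks₂₂) := by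
    conv_lhs => rw [← fromBlocks_toBlocks A, ← fromBlocks_toBlocks B]
    rw [fromBlocks_multiply]
  rw [h]
  refine ⟨?_, ?_, ?_, ?_⟩ <;> simp

/-- the complex versions of the symplectic relations -/
theorem T2b_rel {M : Matrix (Fin g ⊕ Fin g) (Fin g ⊕ Fin g) ℤ} (hM : IsSp M) :
    (toC M.toBlocks₁₁)ᵀ * toC M.toBlocks₂₂ - (toC M.toBlocks₂₁)ᵀ * toC M.toBlocks₁₂ = 1 ∧
    (toC M.toBlocks₁₂)ᵀ * toC M.toBlocks₂₂ = (toC M.toBlocks₂₂)ᵀ * toC M.toBlocks₁₂ ∧
    toC M.toBlocks₁₁ * (toC M.toBlocks₁₂)ᵀ = toC M.toBlocks₁₂ * (toC M.toBlocks₁₁)ᵀ := by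
  obtain ⟨h1, h2, h3⟩ := hM
  have hR : M.toBlocks₁₁ * M.toBlocks₁₂ᵀ = M.toBlocks₁₂ * M.toBlocks₁₁ᵀ := by
    have hL : fromBlocks M.toBlocks₂₂ᵀ (-M.toBlocks₁₂ᵀ) (-M.toBlocks₂₁ᵀ) M.toBlocks₁₁ᵀ *
        fromBlocks M.toBlocks₁₁ M.toBlocks₁₂ M.toBlocks₂₁ M.toBlocks₂₂ = 1 := by
      rw [fromBlocks_multiply, ← fromBlocks_one]
      congr 1
      · have := congrArg Matrix.transpose h1
        simpa [Matrix.transpose_sub, Matrix.transpose_mul, sub_eq_add_neg] using this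
      · rw [Matrix.neg_mul, h3, ← sub_eq_add_neg, sub_self]
      · rw [Matrix.neg_mul, h2, neg_add_cancel]
      · rw [Matrix.neg_mul, add_comm, ← sub_eq_add_neg, h1]
    have hRR := mul_eq_one_comm.mp hL
    rw [fromBlocks_multiply, ← fromBlocks_one] at hRR
    have h12 := (fromBlocks_inj.mp hRR).2.1
    rw [Matrix.mul_neg, neg_add_eq_zero] at h12
    exact h12
  refine ⟨?_, ?_, ?_⟩
  · have := congrArg (toC (R := ℤ)) h1
    rwa [T2b_toC_sub, T2b_toC_mul, T2b_toC_mul, T2b_toC_transpose, T2b_toC_transpose, T2b_toC_one] at this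
  · have := congrArg (toC (R := ℤ)) h3
    rwa [T2b_toC_mul, T2b_toC_mul, T2b_toC_transpose, T2b_toC_transpose] at this
  · have := congrArg (toC (R := ℤ)) hR
    rwa [T2b_toC_mul, T2b_toC_mul, T2b_toC_transpose, T2b_toC_transpose] at this

theorem T2b_act_mul_den {M : Matrix (Fin g ⊕ Fin g) (Fin g ⊕ Fin g) ℤ} {Z : Matrix (Fin g) (Fin g) ℂ}
    (h : (den M Z).det ≠ 0) : act M Z * den M Z = num M Z := by
  unfold act
  rw [Matrix.mul_assoc, Matrix.nonsing_inv_mul _ (isUnit_iff_ne_zero.mpr h), Matrix.mul_one]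

/-- `den_mul` and `num_mul` from invertibility of the denominator of `B` -/
theorem T2b_den_mul_core (A B : Matrix (Fin g ⊕ Fin g) (Fin g ⊕ Fin g) ℤ)
    {Z : Matrix (Fin g) (Fin g) ℂ} (hB : (den B Z).det ≠ 0) :
    den (A * B) Z = den A (act B Z) * den B Z ∧ num (A * B) Z = num A (act B Z) * den B Z := by
  obtain ⟨e11, e12, e21, e22⟩ := T2b_blocks A B
  have hN := T2b_act_mul_den hB
  constructor
  · have : den A (act B Z) * den B Z = toC A.toBlocks₁₁ * den B Z - I • (toC A.toBlocks₁₂ * num B Z) := by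
      rw [← hN]
      simp only [den]
      rw [Matrix.sub_mul, Matrix.smul_mul, Matrix.mul_assoc]
    rw [this]
    simp only [den, num]
    rw [e11, e12]
    simp only [T2b_toC_add, T2b_toC_mul, Matrix.mul_sub, Matrix.mul_add, Matrix.add_mul, Matrix.mul_smul,
      smul_add, smul_smul, Matrix.mul_assoc, I_mul_I, neg_smul, one_smul]
    abel
  · have : num A (act B Z) * den B Z = toC A.toBlocks₂₂ * num B Z + I • (toC A.toBlocks₂₁ * den B Z) := by
      rw [← hN]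
      simp only [num]
      rw [Matrix.add_mul, Matrix.smul_mul, Matrix.mul_assoc]
    rw [this]
    simp only [den, num]
    rw [e21, e22]
    simp only [T2b_toC_add, T2b_toC_mul, Matrix.mul_sub, Matrix.mul_add, Matrix.add_mul, Matrix.mul_smul,
      smul_add, smul_sub, smul_smul, Matrix.mul_assoc, I_mul_I, neg_smul, one_smul]
    abel

theorem T2b_act_mul_core (A B : Matrix (Fin g ⊕ Fin g) (Fin g ⊕ Fin g) ℤ)
    {Z : Matrix (Fin g) (Fin g) ℂ} (hB : (den B Z).det ≠ 0) :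
    act (A * B) Z = act A (act B Z) := by
  obtain ⟨hd, hn⟩ := T2b_den_mul_core A B hB
  have : act (A * B) Z = num (A * B) Z * (den (A * B) Z)⁻¹ := rfl
  rw [this, hd, hn, Matrix.mul_inv_rev, Matrix.mul_assoc (num A (act B Z)),
    ← Matrix.mul_assoc (den B Z), Matrix.mul_nonsing_inv _ (isUnit_iff_ne_zero.mpr hB), Matrix.one_mul]
  rfl

theorem T2b_ex_symm_core {M : Matrix (Fin g ⊕ Fin g) (Fin g ⊕ Fin g) ℤ} (hM : IsSp M)
    {Z : Matrix (Fin g) (Fin g) ℂ} (hZ : Zᵀ = Z) (hD : (den M Z).det ≠ 0) : (ex M Z)ᵀ = ex M Z := by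
  have hu : IsUnit (den M Z).det := isUnit_iff_ne_zero.mpr hD
  have hut : IsUnit ((den M Z)ᵀ).det := by rw [Matrix.det_transpose]; exact hu
  obtain ⟨-, -, h3⟩ := T2b_rel hM
  have key : den M Z * (toC M.toBlocks₁₂)ᵀ = toC M.toBlocks₁₂ * (den M Z)ᵀ := by
    simp only [den]
    rw [Matrix.sub_mul, Matrix.transpose_sub, Matrix.mul_sub, h3, Matrix.smul_mul, Matrix.transpose_smul,
      Matrix.mul_smul, Matrix.transpose_mul, hZ, Matrix.mul_assoc]
  unfold ex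
  rw [Matrix.transpose_mul, Matrix.transpose_nonsing_inv]
  calc (toC M.toBlocks₁₂)ᵀ * ((den M Z)ᵀ)⁻¹
      = ((den M Z)⁻¹ * (den M Z * (toC M.toBlocks₁₂)ᵀ)) * ((den M Z)ᵀ)⁻¹ := by
        rw [← Matrix.mul_assoc, Matrix.nonsing_inv_mul _ hu, Matrix.one_mul]
    _ = (den M Z)⁻¹ * toC M.toBlocks₁₂ := by
        rw [key, Matrix.mul_assoc, Matrix.mul_assoc, Matrix.mul_nonsing_inv _ hut, Matrix.mul_one]

theorem T2b_ex_mul_core {A B : Matrix (Fin g ⊕ Fin g) (Fin g ⊕ Fin g) ℤ} (hB : IsSp B)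
    {Z : Matrix (Fin g) (Fin g) ℂ} (hZ : Zᵀ = Z) (hDB : (den B Z).det ≠ 0)
    (hDA : (den A (act B Z)).det ≠ 0) (hW : (act B Z)ᵀ = act B Z) :
    ex (A * B) Z = ex B Z + (den B Z)⁻¹ * ex A (act B Z) * ((den B Z)⁻¹)ᵀ := by
  have hu : IsUnit (den B Z).det := isUnit_iff_ne_zero.mpr hDB
  have hut : IsUnit ((den B Z)ᵀ).det := by rw [Matrix.det_transpose]; exact hu
  have huA : IsUnit (den A (act B Z)).det := isUnit_iff_ne_zero.mpr hDA
  obtain ⟨h1, h2, -⟩ := T2b_rel hB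
  obtain ⟨e11, e12, e21, e22⟩ := T2b_blocks A B
  obtain ⟨hd, hn⟩ := T2b_den_mul_core A B hDB
  -- `d + i W b = D⁻ᵀ`
  have key : toC B.toBlocks₂₂ + I • (act B Z * toC B.toBlocks₁₂) = ((den B Z)⁻¹)ᵀ := by
    have hk : (den B Z)ᵀ * (toC B.toBlocks₂₂ + I • (act B Z * toC B.toBlocks₁₂)) = 1 := by
      have hWD : (den B Z)ᵀ * act B Z = (num B Z)ᵀ := by
        rw [← T2b_act_mul_den hDB, Matrix.transpose_mul, hW]
      rw [Matrix.mul_add, Matrix.mul_smul, ← Matrix.mul_assoc, hWD]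
      simp only [den, num]
      rw [Matrix.transpose_sub, Matrix.transpose_add, Matrix.transpose_smul, Matrix.transpose_smul,
        Matrix.transpose_mul, Matrix.transpose_mul, hZ, Matrix.sub_mul, Matrix.add_mul, Matrix.smul_mul,
        Matrix.smul_mul, smul_add, smul_smul, I_mul_I, neg_smul, one_smul, Matrix.mul_assoc, Matrix.mul_assoc,
        ← h2, ← h1]
      abel
    rw [Matrix.transpose_nonsing_inv]
    calc toC B.toBlocks₂₂ + I • (act B Z * toC B.toBlocks₁₂)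
        = ((den B Z)ᵀ)⁻¹ * ((den B Z)ᵀ * (toC B.toBlocks₂₂ + I • (act B Z * toC B.toBlocks₁₂))) := by
          rw [← Matrix.mul_assoc, Matrix.nonsing_inv_mul _ hut, Matrix.one_mul]
      _ = ((den B Z)ᵀ)⁻¹ := by rw [hk, Matrix.mul_one]
  have hnum : toC (A * B).toBlocks₁₂ = den A (act B Z) * toC B.toBlocks₁₂ + toC A.toBlocks₁₂ * ((den B Z)⁻¹)ᵀ := by
    rw [← key, e12, T2b_toC_add, T2b_toC_mul, T2b_toC_mul]
    simp only [den]
    rw [Matrix.sub_mul, Matrix.smul_mul, Matrix.mul_add, Matrix.mul_smul, Matrix.mul_assoc (toC A.toBlocks₁₂)]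
    abel
  have e0 : ex (A * B) Z = (den (A * B) Z)⁻¹ * toC (A * B).toBlocks₁₂ := rfl
  have e1 : ex A (act B Z) = (den A (act B Z))⁻¹ * toC A.toBlocks₁₂ := rfl
  have e2 : ex B Z = (den B Z)⁻¹ * toC B.toBlocks₁₂ := rfl
  rw [e0, e1, e2, hd, hnum, Matrix.mul_inv_rev, Matrix.mul_add, Matrix.mul_assoc (den B Z)⁻¹,
    ← Matrix.mul_assoc (den A (act B Z))⁻¹ (den A (act B Z)), Matrix.nonsing_inv_mul _ huA, Matrix.one_mul]
  simp only [Matrix.mul_assoc]

theorem T2b_den_continuous (M : Matrix (Fin g ⊕ Fin g) (Fin g ⊕ Fin g) ℤ) :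
    Continuous (den M : Matrix (Fin g) (Fin g) ℂ → Matrix (Fin g) (Fin g) ℂ) := by
  unfold den
  fun_prop

theorem T2b_num_continuous (M : Matrix (Fin g ⊕ Fin g) (Fin g ⊕ Fin g) ℤ) :
    Continuous (num M : Matrix (Fin g) (Fin g) ℂ → Matrix (Fin g) (Fin g) ℂ) := by
  unfold num
  fun_prop

theorem T2b_act_continuous_core {M : Matrix (Fin g ⊕ Fin g) (Fin g ⊕ Fin g) ℤ}
    (h : ∀ Z : Matrix (Fin g) (Fin g) ℂ, IsSiegel Z → (den M Z).det ≠ 0) :
    ContinuousOn (act M) {Z : Matrix (Fin g) (Fin g) ℂ | IsSiegel Z} := by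
  have hd := T2b_den_continuous M
  have hn := T2b_num_continuous M
  have e : (act M : Matrix (Fin g) (Fin g) ℂ → Matrix (Fin g) (Fin g) ℂ) =
      fun Z => num M Z * (((den M Z).det)⁻¹ • (den M Z).adjugate) := by
    funext Z
    unfold act
    rw [Matrix.inv_def, Ring.inverse_eq_inv']
  rw [e]
  have h1 : ContinuousOn (fun Z : Matrix (Fin g) (Fin g) ℂ => ((den M Z).det)⁻¹)
      {Z : Matrix (Fin g) (Fin g) ℂ | IsSiegel Z} :=
    ContinuousOn.inv₀ (Continuous.matrix_det hd).continuousOn (fun Z hZ => h Z hZ)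
  have h2 : ContinuousOn (fun Z : Matrix (Fin g) (Fin g) ℂ => (den M Z).adjugate)
      {Z : Matrix (Fin g) (Fin g) ℂ | IsSiegel Z} := (Continuous.matrix_adjugate hd).continuousOn
  exact ContinuousOn.mul hn.continuousOn (ContinuousOn.smul h1 h2)

end

end Pool.Agent.helper76.BQ
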