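import Mathlib
import Pool.Agent.helper76.BQ.TDefs
import Pool.Agent.helper82.BQ.T2a
import Pool.Agent.helper93.BQ.T2b0

/-!
bq:T2b, verbatim statements T2d, T2e, T2f, T2g.
-/

open Matrix Complex

namespace Pool.Agent.helper76.BQ

/-- T2d -/
theorem den_mul {g : ℕ} {A B : Matrix (Fin g ⊕ Fin g) (Fin g ⊕ Fin g) ℤ} (hA : IsSp A) (hB : IsSp B)
    {Z : Matrix (Fin g) (Fin g) ℂ} (hZ : IsSiegel Z) :
    den (A * B) Z = den A (act B Z) * den B Z ∧ act (A * B) Z = act A (act B Z) :=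
  ⟨(T2b_den_mul_core A B (den_det_ne hB hZ)).1, T2b_act_mul_core A B (den_det_ne hB hZ)⟩

/-- T2e -/
theorem ex_symm {g : ℕ} {M : Matrix (Fin g ⊕ Fin g) (Fin g ⊕ Fin g) ℤ} (hM : IsSp M)
    {Z : Matrix (Fin g) (Fin g) ℂ} (hZ : IsSiegel Z) : (ex M Z)ᵀ = ex M Z :=
  T2b_ex_symm_core hM hZ.1 (den_det_ne hM hZ)

/-- T2f -/
theorem ex_mul {g : ℕ} {A B : Matrix (Fin g ⊕ Fin g) (Fin g ⊕ Fin g) ℤ} (hA : IsSp A) (hB : IsSp B)
    {Z : Matrix (Fin g) (Fin g) ℂ} (hZ : IsSiegel Z) :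
    ex (A * B) Z = ex B Z + (den B Z)⁻¹ * ex A (act B Z) * ((den B Z)⁻¹)ᵀ :=
  T2b_ex_mul_core hB hZ.1 (den_det_ne hB hZ) (den_det_ne hA (act_siegel hB hZ)) (act_siegel hB hZ).1

/-- T2g: continuity of the denominator and of the action -/
theorem act_continuous {g : ℕ} {M : Matrix (Fin g ⊕ Fin g) (Fin g ⊕ Fin g) ℤ} (hM : IsSp M) :
    ContinuousOn (act M) {Z : Matrix (Fin g) (Fin g) ℂ | IsSiegel Z} ∧
      Continuous (den M : Matrix (Fin g) (Fin g) ℂ → Matrix (Fin g) (Fin g) ℂ) :=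
  ⟨T2b_act_continuous_core (fun _ hZ => den_det_ne hM hZ), T2b_den_continuous M⟩

end Pool.Agent.helper76.BQ
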