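import Pool.Agent.helper93.BQ.B7bof
import Pool.Agent.helper92.BQ.T9
import Pool.Agent.helper76.BQ.B2g
import Pool.Agent.helper92.BQ.B4
import Pool.Agent.helper76.BQ.B1
import Pool.Agent.helper76.BQ.B3
import Pool.Agent.helper52.BQ.B2a
import Pool.Agent.helper94.BQ.B2c
import Pool.Agent.helper4.BQ.B5a
import Pool.Agent.helper52.BQ.B5c
import Pool.Agent.helper44.BQ.B5d
import Pool.Agent.helper79.BQ.B5eF
import Pool.Agent.helper1.BQ.B5f
import Pool.Agent.helper63.BQ.B5g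
import Pool.Agent.helper99.BQ.B6a
import Pool.Agent.helper26.BQ.B6b

/-!
# Project bq, module B7b: the theta two-form is invariant up to roots of unity of bounded order
-/

open Matrix Complex

namespace Pool.Agent.helper76.BQ

variable {F : Type} [Field F] [NumberField F]

/-- B7b -/
theorem th2_inv {κ d : F} {v0 : F →+* ℝ} (hd : Data κ d v0) (hκ : IsIntegral ℤ κ) (hdi : IsIntegral ℤ d)
    {δ : Fin 2 → F} {P : Type} [TopologicalSpace P] [PreconnectedSpace P]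
    {S M : P → (F →+* ℝ) → Matrix (Fin 2) (Fin 2) ℝ} (hM : ∀ p, MajAll δ v0 (S p) (M p))
    (hc : ∀ v l l', Continuous (fun p => M p v l l'))
    {φ : (Fin 2 → Fin 3 → F) → ℂ} (hφ : IsSchw φ) :
    ∃ n K : ℕ, 0 < n ∧ 0 < K ∧ ∀ A C : Matrix (Fin 3) (Fin 3) F, IsSU κ d A C → Cong n A C →
      ∃ c : ℂ, c ^ K = 1 ∧ ∀ z ∈ Ball (v0 d), ∀ p : P,
        th2 κ d v0 (M p) φ (mob (evm κ v0 A C) z) * (fderiv ℂ (mob (evm κ v0 A C)) z).det =
          c * th2 κ d v0 (M p) φ z :=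
  B7b_of hd hM (fun {_ _} hN hev => siegel_main hN hev)
    (fun {_} hz => nn_re_pos hz)
    (fun {_ _} h {_} hz => ⟨(mob_ball hd.dpos h hz).1, (mob_ball hd.dpos h hz).2.1⟩)
    (fun {_ _} h {_} hz x y => dss2_law hd.dpos h hz x y)
    (fun {_ _} h => (gu_of_su h v0 (hd.kpos v0)).1)
    (fun hδ => lb_exists hd δ hδ)
    (fun hδ {_ _ _} hL m hm => rep_exists hd hκ hdi δ hδ hL m hm)
    (fun {_ _ _} hL p {_} hz => Zm_siegel hd hL (hM p) hz)
    (fun {_ _ _} hL p {_} hz {_ _ _} hR c l => (den_places hd hL (hM p) hz hR c).1 l)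
    (fun {_ _ _} hL p {_} hz {_ _} hA {_} hR => act_Zm hd hL (hM p) hz hA hR)
    (fun {_ _ _} hL p {_} hz {_ _} hA {_} hR => det_den_Zm hd hL (hM p) hz hA hR)
    (fun {_ _ _} hL p {_} hz {_ _ _} hR a a' => mixed_zero hd hL (hM p) hz hR 0 1 (by decide) a a')
    (fun {_} bas => Zm_continuous hd bas M hc)
    (fun {_ _ _} hL => schw_level hL hφ)
    (fun {_ _ _} hL {_} hN {_} h1 h2 p z hS => th2_eq hL hN h1 h2 (M p) z hS)

end Pool.Agent.helper76.BQ
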