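import Mathlib
import Pool.Agent.helper28.BQ.SpecK

/-!
bq:MB: comparison of the majorant with the standard norm on compact parts of the ball.
-/

open scoped BigOperators ComplexConjugate Matrix

namespace BQ

theorem MB_maj_smul (t : ℝ) (w : Fin 2 → ℂ) (r : ℝ) (X : Fin 3 → ℂ) :
    maj t w ((r : ℂ) • X) = r ^ 2 * maj t w X := by
  have h1 : herm t ((r : ℂ) • X) ((r : ℂ) • X) = ((r ^ 2 : ℝ) : ℂ) * herm t X X := by
    simp only [herm, Pi.smul_apply, smul_eq_mul, map_mul, Complex.conj_ofReal]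
    push_cast
    ring
  have h2 : herm t (zt w) ((r : ℂ) • X) = (r : ℂ) * herm t (zt w) X := by
    simp only [herm, Pi.smul_apply, smul_eq_mul]
    ring
  unfold maj
  rw [h1, h2, Complex.re_ofReal_mul, norm_mul, mul_pow, Complex.norm_real, Real.norm_eq_abs, sq_abs]
  ring

theorem MB_continuous_herm (t : ℝ) :
    Continuous (fun p : (Fin 3 → ℂ) × (Fin 3 → ℂ) => herm t p.1 p.2) := by
  unfold herm
  have hc : ∀ i : Fin 3, Continuous (fun p : (Fin 3 → ℂ) × (Fin 3 → ℂ) => (conj (p.1 i) : ℂ)) := by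
    intro i
    exact Complex.continuous_conj.comp ((continuous_apply i).comp continuous_fst)
  have hd : ∀ i : Fin 3, Continuous (fun p : (Fin 3 → ℂ) × (Fin 3 → ℂ) => p.2 i) := by
    intro i
    exact (continuous_apply i).comp continuous_snd
  exact (((hc 0).mul (hd 0)).add ((hc 1).mul (hd 1))).sub (continuous_const.mul ((hc 2).mul (hd 2)))

theorem MB_continuous_zt : Continuous zt := by
  refine continuous_pi ?_
  intro i
  fin_cases i
  · exact continuous_apply 0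
  · exact continuous_apply 1
  · exact continuous_const

theorem MB_continuousOn_maj (t : ℝ) :
    ContinuousOn (fun p : (Fin 2 → ℂ) × (Fin 3 → ℂ) => maj t p.1 p.2) {p | p.1 ∈ Ball t} := by
  unfold maj
  have h1 : Continuous (fun p : (Fin 2 → ℂ) × (Fin 3 → ℂ) => (herm t p.2 p.2).re) :=
    Complex.continuous_re.comp ((MB_continuous_herm t).comp (continuous_snd.prodMk continuous_snd))
  have h2 : Continuous (fun p : (Fin 2 → ℂ) × (Fin 3 → ℂ) => 2 * ‖herm t (zt p.1) p.2‖ ^ 2) :=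
    continuous_const.mul ((((MB_continuous_herm t).comp
      ((MB_continuous_zt.comp continuous_fst).prodMk continuous_snd)).norm).pow 2)
  have h3 : Continuous (fun p : (Fin 2 → ℂ) × (Fin 3 → ℂ) => t - ‖p.1 0‖ ^ 2 - ‖p.1 1‖ ^ 2) := by
    fun_prop
  refine h1.continuousOn.add (h2.continuousOn.div h3.continuousOn ?_)
  intro p hp
  have : ‖p.1 0‖ ^ 2 + ‖p.1 1‖ ^ 2 < t := hp
  linarith

theorem MB (hMA : MA_stmt) : MB_stmt := by
  intro t K ht hK hKB
  rcases K.eq_empty_or_nonempty with he | hne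
  · refine ⟨1, 0, one_pos, ?_⟩
    intro w hw
    rw [he] at hw
    exact absurd hw (Set.notMem_empty w)
  -- the compact set `K × sphere`
  set S : Set (Fin 3 → ℂ) := Metric.sphere 0 1 with hS
  have hSc : IsCompact S := isCompact_sphere 0 1
  have hSn : S.Nonempty := by
    refine ⟨fun _ => 1, ?_⟩
    rw [hS, mem_sphere_zero_iff_norm]
    simp
  have hKS : IsCompact (K ×ˢ S) := hK.prod hSc
  have hKSn : (K ×ˢ S).Nonempty := hne.prod hSn
  have hcont : ContinuousOn (fun p : (Fin 2 → ℂ) × (Fin 3 → ℂ) => maj t p.1 p.2) (K ×ˢ S) :=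
    (MB_continuousOn_maj t).mono (fun p hp => hKB hp.1)
  obtain ⟨p0, hp0, hmin⟩ := hKS.exists_isMinOn hKSn hcont
  obtain ⟨p1, hp1, hmax⟩ := hKS.exists_isMaxOn hKSn hcont
  have hnz : ∀ X ∈ S, X ≠ 0 := by
    intro X hX h0
    rw [hS, mem_sphere_zero_iff_norm, h0, norm_zero] at hX
    exact zero_ne_one hX
  have hm : 0 < maj t p0.1 p0.2 := (hMA t p0.1 (hKB hp0.1)).1 p0.2 (hnz _ hp0.2)
  have hM : 0 < maj t p1.1 p1.2 := (hMA t p1.1 (hKB hp1.1)).1 p1.2 (hnz _ hp1.2)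
  refine ⟨maj t p0.1 p0.2 / 3, maj t p1.1 p1.2, by positivity, ?_⟩
  intro w hw X
  by_cases hX : X = 0
  · subst hX
    have h0 : maj t w (0 : Fin 3 → ℂ) = 0 := by
      have := MB_maj_smul t w 0 0
      simpa using this
    rw [h0]
    simp
  · have hXn : 0 < ‖X‖ := norm_pos_iff.mpr hX
    set Y : Fin 3 → ℂ := ((‖X‖⁻¹ : ℝ) : ℂ) • X with hY
    have hYS : Y ∈ S := by
      rw [hS, mem_sphere_zero_iff_norm, hY, norm_smul, Complex.norm_real, norm_inv, norm_norm,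
        inv_mul_cancel₀ hXn.ne']
    have hXY : X = ((‖X‖ : ℝ) : ℂ) • Y := by
      rw [hY, smul_smul, ← Complex.ofReal_mul, mul_inv_cancel₀ hXn.ne', Complex.ofReal_one, one_smul]
    have hYn : ‖Y‖ = 1 := by rwa [hS, mem_sphere_zero_iff_norm] at hYS
    have hmaj : maj t w X = ‖X‖ ^ 2 * maj t w Y := by
      conv_lhs => rw [hXY]
      exact MB_maj_smul t w ‖X‖ Y
    have hsum : (∑ i, ‖X i‖ ^ 2) = ‖X‖ ^ 2 * ∑ i, ‖Y i‖ ^ 2 := by
      rw [Finset.mul_sum]
      refine Finset.sum_congr rfl (fun i _ => ?_)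
      have : X i = ((‖X‖ : ℝ) : ℂ) * Y i := by
        conv_lhs => rw [hXY]
        rfl
      rw [this, norm_mul, mul_pow, Complex.norm_real, norm_norm]
    have hle : ∀ i, ‖Y i‖ ≤ 1 := fun i => hYn ▸ norm_le_pi_norm Y i
    have hup : (∑ i, ‖Y i‖ ^ 2) ≤ 3 := by
      calc (∑ i, ‖Y i‖ ^ 2) ≤ ∑ _i : Fin 3, (1 : ℝ) := by
            refine Finset.sum_le_sum (fun i _ => ?_)
            have := norm_nonneg (Y i)
            have := hle i
            nlinarith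
        _ = 3 := by simp
    have hlow : 1 ≤ ∑ i, ‖Y i‖ ^ 2 := by
      by_contra hcon
      push Not at hcon
      have hlt : ∀ i, ‖Y i‖ < 1 := by
        intro i
        have h1 : ‖Y i‖ ^ 2 ≤ ∑ i, ‖Y i‖ ^ 2 :=
          Finset.single_le_sum (f := fun i => ‖Y i‖ ^ 2) (fun j _ => sq_nonneg _) (Finset.mem_univ i)
        have h2 : ‖Y i‖ ^ 2 < 1 := lt_of_le_of_lt h1 hcon
        have := norm_nonneg (Y i)
        nlinarith
      have : ‖Y‖ < 1 := (pi_norm_lt_iff one_pos).mpr hlt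
      rw [hYn] at this
      exact lt_irrefl _ this
    have hmY : maj t p0.1 p0.2 ≤ maj t w Y := hmin (show (w, Y) ∈ K ×ˢ S from ⟨hw, hYS⟩)
    have hMY : maj t w Y ≤ maj t p1.1 p1.2 := hmax (show (w, Y) ∈ K ×ˢ S from ⟨hw, hYS⟩)
    have hX2 : 0 < ‖X‖ ^ 2 := by positivity
    rw [hmaj, hsum]
    constructor
    · have : maj t p0.1 p0.2 / 3 * ∑ i, ‖Y i‖ ^ 2 ≤ maj t w Y := by
        calc maj t p0.1 p0.2 / 3 * ∑ i, ‖Y i‖ ^ 2 ≤ maj t p0.1 p0.2 / 3 * 3 :=
              mul_le_mul_of_nonneg_left hup (by positivity)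
          _ = maj t p0.1 p0.2 := by ring
          _ ≤ maj t w Y := hmY
      calc maj t p0.1 p0.2 / 3 * (‖X‖ ^ 2 * ∑ i, ‖Y i‖ ^ 2)
          = ‖X‖ ^ 2 * (maj t p0.1 p0.2 / 3 * ∑ i, ‖Y i‖ ^ 2) := by ring
        _ ≤ ‖X‖ ^ 2 * maj t w Y := mul_le_mul_of_nonneg_left this hX2.le
    · have : maj t w Y ≤ maj t p1.1 p1.2 * ∑ i, ‖Y i‖ ^ 2 := by
        calc maj t w Y ≤ maj t p1.1 p1.2 * 1 := by linarith
          _ ≤ maj t p1.1 p1.2 * ∑ i, ‖Y i‖ ^ 2 := mul_le_mul_of_nonneg_left hlow hM.le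
      calc ‖X‖ ^ 2 * maj t w Y ≤ ‖X‖ ^ 2 * (maj t p1.1 p1.2 * ∑ i, ‖Y i‖ ^ 2) :=
            mul_le_mul_of_nonneg_left this hX2.le
        _ = maj t p1.1 p1.2 * (‖X‖ ^ 2 * ∑ i, ‖Y i‖ ^ 2) := by ring

end BQ
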