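import Mathlib
import Pool.Agent.helper76.BQ.TDefs
import Pool.Agent.helper76.BQ.BDefs
import Pool.Agent.helper76.BQ.BGood
import Pool.Agent.helper93.BQ.B7b0

/-!
bq:B7b with all inputs of other modules as explicit hypotheses.
-/

open Matrix Complex

namespace Pool.Agent.helper76.BQ

variable {F : Type} [Field F] [NumberField F]

/-- the law at one point -/
theorem B7b_point {κ d : F} {v0 : F →+* ℝ} {g N : ℕ} {bas : Fin g → Fin 2 → Fin 3 → F} {ψ : Sch g N}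
    {MM : Matrix (Fin g ⊕ Fin g) (Fin g ⊕ Fin g) ℤ} {Mp : (F →+* ℝ) → Matrix (Fin 2) (Fin 2) ℝ}
    {z : Fin 2 → ℂ} {gm gp : Matrix (Fin 3) (Fin 3) ℂ} {φ : (Fin 2 → Fin 3 → F) → ℂ} {j q r t : ℂ}
    (hth : th2 κ d v0 Mp φ z = ∑ i, ∑ k, Th2 N ψ (Zm κ d v0 bas Mp z) i k *
      B7b_om (v0 d) z (pl v0 (bas i 0)) (pl v0 (bas k 1)))
    (hth' : th2 κ d v0 Mp φ (mob gm z) = ∑ i, ∑ k, Th2 N ψ (Zm κ d v0 bas Mp (mob gm z)) i k *
      B7b_om (v0 d) (mob gm z) (pl v0 (bas i 0)) (pl v0 (bas k 1)))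
    (hact : act MM (Zm κ d v0 bas Mp z) = Zm κ d v0 bas Mp (mob gm z))
    (hlaw : ∀ i k, Th2 N ψ (act MM (Zm κ d v0 bas Mp z)) i k = j *
      ((den MM (Zm κ d v0 bas Mp z) * (Matrix.of (Th2 N ψ (Zm κ d v0 bas Mp z))) *
        (den MM (Zm κ d v0 bas Mp z))ᵀ) i k
        - q * (toC MM.toBlocks₁₂ * (den MM (Zm κ d v0 bas Mp z))ᵀ) i k))
    (hden : ∀ k l, ∑ i, den MM (Zm κ d v0 bas Mp z) i k • pl v0 (bas i l) =
      AA (v0 d) gm gp z (pl v0 (bas k l)))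
    (hmix : ∀ a a' : Fin 3, ∑ i, ∑ k, (toC MM.toBlocks₁₂ * (den MM (Zm κ d v0 bas Mp z))ᵀ) i k *
      (pl v0 (bas i 0) a * pl v0 (bas k 1) a') = 0)
    (hform : ∀ x y : Fin 3 → ℂ, B7b_om (v0 d) (mob gm z) (AA (v0 d) gm gp z x) (AA (v0 d) gm gp z y) * t =
      r * B7b_om (v0 d) z x y) :
    th2 κ d v0 Mp φ (mob gm z) * t = (j * r) * th2 κ d v0 Mp φ z := by
  have e1 : th2 κ d v0 Mp φ (mob gm z) =
      j * (∑ i, ∑ k, (den MM (Zm κ d v0 bas Mp z) * (Matrix.of (Th2 N ψ (Zm κ d v0 bas Mp z))) *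
        (den MM (Zm κ d v0 bas Mp z))ᵀ) i k *
        B7b_om (v0 d) (mob gm z) (pl v0 (bas i 0)) (pl v0 (bas k 1))) -
      j * q * (∑ i, ∑ k, (toC MM.toBlocks₁₂ * (den MM (Zm κ d v0 bas Mp z))ᵀ) i k *
        B7b_om (v0 d) (mob gm z) (pl v0 (bas i 0)) (pl v0 (bas k 1))) := by
    rw [hth', ← hact]
    simp only [hlaw]
    rw [Finset.mul_sum, Finset.mul_sum, ← Finset.sum_sub_distrib]
    refine Finset.sum_congr rfl (fun i _ => ?_)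
    rw [Finset.mul_sum, Finset.mul_sum, ← Finset.sum_sub_distrib]
    refine Finset.sum_congr rfl (fun k _ => ?_)
    ring
  have e2 := B7b_mixed (v0 d) (mob gm z) (toC MM.toBlocks₁₂ * (den MM (Zm κ d v0 bas Mp z))ᵀ)
    (fun i => pl v0 (bas i 0)) (fun k => pl v0 (bas k 1)) hmix
  have e3 := B7b_main (v0 d) (mob gm z) (den MM (Zm κ d v0 bas Mp z))
    (Matrix.of (Th2 N ψ (Zm κ d v0 bas Mp z)))
    (fun i => pl v0 (bas i 0)) (fun k => pl v0 (bas k 1))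
    (fun i => AA (v0 d) gm gp z (pl v0 (bas i 0))) (fun k => AA (v0 d) gm gp z (pl v0 (bas k 1)))
    (fun k => hden k 0) (fun k => hden k 1)
  rw [e1, e2, e3, mul_zero, sub_zero, hth, mul_assoc, Finset.sum_mul, mul_assoc, Finset.mul_sum (a := r)]
  congr 1
  refine Finset.sum_congr rfl (fun i _ => ?_)
  rw [Finset.sum_mul, Finset.mul_sum]
  refine Finset.sum_congr rfl (fun k _ => ?_)
  rw [mul_assoc, hform, Matrix.of_apply]
  ring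

/-- statement of `siegel_main` (T9) -/
def B7b_T9 : Prop := ∀ {g N : ℕ} (_ : 0 < N) (_ : Even N),
    ∃ K : ℕ, 0 < K ∧ ∀ M : Matrix (Fin g ⊕ Fin g) (Fin g ⊕ Fin g) ℤ, IsSp M →
      (∀ i j, (2 * N ^ 2 : ℤ) ∣ (M - 1) i j) →
      ∃ J : Matrix (Fin g) (Fin g) ℂ → ℂ, ContinuousOn J {Z | IsSiegel Z} ∧
        (∀ Z, IsSiegel Z → J Z ^ (2 * K) = (den M Z).det ^ K) ∧
        ∀ Z, IsSiegel Z → ∀ φ : Sch g N,
          (∀ i, Th1 N φ (act M Z) i = J Z * (den M Z *ᵥ Th1 N φ Z) i) ∧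
          (∀ i k, Th2 N φ (act M Z) i k = J Z * ((den M Z * (Matrix.of (Th2 N φ Z)) * (den M Z)ᵀ) i k
            - (1 / (2 * (Real.pi : ℂ) * I)) * Th N φ Z 0 * (toC M.toBlocks₁₂ * (den M Z)ᵀ) i k))

theorem B7b_of {κ d : F} {v0 : F →+* ℝ} (hd : Data κ d v0)
    {δ : Fin 2 → F} {P : Type} [TopologicalSpace P] [PreconnectedSpace P]
    {S M : P → (F →+* ℝ) → Matrix (Fin 2) (Fin 2) ℝ} (hM : ∀ p, MajAll δ v0 (S p) (M p))
    {φ : (Fin 2 → Fin 3 → F) → ℂ}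
    (hT9 : B7b_T9)
    (hB1a : ∀ {z : Fin 2 → ℂ}, z ∈ Ball (v0 d) → 0 < (nn (v0 d) z).re)
    (hB2a : ∀ {gm gp : Matrix (Fin 3) (Fin 3) ℂ}, GU (v0 d) gm gp → ∀ {z : Fin 2 → ℂ}, z ∈ Ball (v0 d) →
      (gm *ᵥ lift z) 2 ≠ 0 ∧ mob gm z ∈ Ball (v0 d))
    (hB2d : ∀ {gm gp : Matrix (Fin 3) (Fin 3) ℂ}, GU (v0 d) gm gp → ∀ {z : Fin 2 → ℂ}, z ∈ Ball (v0 d) →
      ∀ (x y : Fin 3 → ℂ),
      (dss (v0 d) (AA (v0 d) gm gp z x) (mob gm z) 0 * dss (v0 d) (AA (v0 d) gm gp z y) (mob gm z) 1 -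
        dss (v0 d) (AA (v0 d) gm gp z x) (mob gm z) 1 * dss (v0 d) (AA (v0 d) gm gp z y) (mob gm z) 0) *
          (fderiv ℂ (mob gm) z).det =
      nn (v0 d) z / ((gm *ᵥ lift z) 2 ^ 2 * nn (v0 d) (mob gm z)) *
        (dss (v0 d) x z 0 * dss (v0 d) y z 1 - dss (v0 d) x z 1 * dss (v0 d) y z 0))
    (hB2g : ∀ {A C : Matrix (Fin 3) (Fin 3) F}, IsSU κ d A C → GU (v0 d) (evm κ v0 A C) (evp κ v0 A C))
    (hB3 : (∀ l, δ l ≠ 0) → ∃ (g : ℕ) (bas dua : Fin g → Fin 2 → Fin 3 → F), LB d δ bas dua)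
    (hB4 : (∀ l, δ l ≠ 0) → ∀ {g : ℕ} {bas dua : Fin g → Fin 2 → Fin 3 → F}, LB d δ bas dua →
      ∀ m : ℕ, 0 < m → ∃ n : ℕ, 0 < n ∧ ∀ A C : Matrix (Fin 3) (Fin 3) F, IsU κ d A C → Cong n A C →
      ∃ M : Matrix (Fin g ⊕ Fin g) (Fin g ⊕ Fin g) ℤ, Rep κ bas dua A C M ∧ ∀ i j, (m : ℤ) ∣ (M - 1) i j)
    (hB5a : ∀ {g : ℕ} {bas dua : Fin g → Fin 2 → Fin 3 → F}, LB d δ bas dua → ∀ (p : P) {z : Fin 2 → ℂ},
      z ∈ Ball (v0 d) → IsSiegel (Zm κ d v0 bas (M p) z))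
    (hB5c : ∀ {g : ℕ} {bas dua : Fin g → Fin 2 → Fin 3 → F}, LB d δ bas dua → ∀ (p : P) {z : Fin 2 → ℂ},
      z ∈ Ball (v0 d) → ∀ {A C : Matrix (Fin 3) (Fin 3) F} {MM : Matrix (Fin g ⊕ Fin g) (Fin g ⊕ Fin g) ℤ},
      Rep κ bas dua A C MM → ∀ (c : Fin g → ℂ) (l : Fin 2),
      ∑ i, (den MM (Zm κ d v0 bas (M p) z) *ᵥ c) i • pl v0 (bas i l) =
        AA (v0 d) (evm κ v0 A C) (evp κ v0 A C) z (∑ i, c i • pl v0 (bas i l)))
    (hB5d : ∀ {g : ℕ} {bas dua : Fin g → Fin 2 → Fin 3 → F}, LB d δ bas dua → ∀ (p : P) {z : Fin 2 → ℂ},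
      z ∈ Ball (v0 d) → ∀ {A C : Matrix (Fin 3) (Fin 3) F}, IsSU κ d A C →
      ∀ {MM : Matrix (Fin g ⊕ Fin g) (Fin g ⊕ Fin g) ℤ}, Rep κ bas dua A C MM →
      act MM (Zm κ d v0 bas (M p) z) = Zm κ d v0 bas (M p) (mob (evm κ v0 A C) z))
    (hB5e : ∀ {g : ℕ} {bas dua : Fin g → Fin 2 → Fin 3 → F}, LB d δ bas dua → ∀ (p : P) {z : Fin 2 → ℂ},
      z ∈ Ball (v0 d) → ∀ {A C : Matrix (Fin 3) (Fin 3) F}, IsSU κ d A C →
      ∀ {MM : Matrix (Fin g ⊕ Fin g) (Fin g ⊕ Fin g) ℤ}, Rep κ bas dua A C MM →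
      (den MM (Zm κ d v0 bas (M p) z)).det =
        ((evm κ v0 A C *ᵥ lift z) 2 ^ 2 * nn (v0 d) (mob (evm κ v0 A C) z) / nn (v0 d) z) ^ 2)
    (hB5f : ∀ {g : ℕ} {bas dua : Fin g → Fin 2 → Fin 3 → F}, LB d δ bas dua → ∀ (p : P) {z : Fin 2 → ℂ},
      z ∈ Ball (v0 d) → ∀ {A C : Matrix (Fin 3) (Fin 3) F} {MM : Matrix (Fin g ⊕ Fin g) (Fin g ⊕ Fin g) ℤ},
      Rep κ bas dua A C MM → ∀ (a a' : Fin 3),
      ∑ i, ∑ j, (toC MM.toBlocks₁₂ * (den MM (Zm κ d v0 bas (M p) z))ᵀ) i j *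
        (pl v0 (bas i 0) a * pl v0 (bas j 1) a') = 0)
    (hB5g : ∀ {g : ℕ} (bas : Fin g → Fin 2 → Fin 3 → F),
      ContinuousOn (fun q : P × (Fin 2 → ℂ) => Zm κ d v0 bas (M q.1) q.2) (Set.univ ×ˢ Ball (v0 d)))
    (hB6a : ∀ {g : ℕ} {bas dua : Fin g → Fin 2 → Fin 3 → F}, LB d δ bas dua →
      ∃ N : ℕ, 0 < N ∧ Even N ∧ ∃ ψ : Sch g N,
        (∀ n : Fin g → ℤ, φ (∑ i, ((n i : F) / (N : F)) • bas i) = ψ (red N n)) ∧
        ∀ x, φ x ≠ 0 → ∃ n : Fin g → ℤ, x = ∑ i, ((n i : F) / (N : F)) • bas i)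
    (hB6c : ∀ {g : ℕ} {bas dua : Fin g → Fin 2 → Fin 3 → F}, LB d δ bas dua → ∀ {N : ℕ}, 0 < N →
      ∀ {ψ : Sch g N}, (∀ n : Fin g → ℤ, φ (∑ i, ((n i : F) / (N : F)) • bas i) = ψ (red N n)) →
      (∀ x, φ x ≠ 0 → ∃ n : Fin g → ℤ, x = ∑ i, ((n i : F) / (N : F)) • bas i) →
      ∀ (p : P) (z : Fin 2 → ℂ), IsSiegel (Zm κ d v0 bas (M p) z) →
      th2 κ d v0 (M p) φ z = ∑ i, ∑ j, Th2 N ψ (Zm κ d v0 bas (M p) z) i j *
        (dss (v0 d) (pl v0 (bas i 0)) z 0 * dss (v0 d) (pl v0 (bas j 1)) z 1 -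
         dss (v0 d) (pl v0 (bas i 0)) z 1 * dss (v0 d) (pl v0 (bas j 1)) z 0)) :
    ∃ n K : ℕ, 0 < n ∧ 0 < K ∧ ∀ A C : Matrix (Fin 3) (Fin 3) F, IsSU κ d A C → Cong n A C →
      ∃ c : ℂ, c ^ K = 1 ∧ ∀ z ∈ Ball (v0 d), ∀ p : P,
        th2 κ d v0 (M p) φ (mob (evm κ v0 A C) z) * (fderiv ℂ (mob (evm κ v0 A C)) z).det =
          c * th2 κ d v0 (M p) φ z := by
  rcases isEmpty_or_nonempty P with hP | ⟨⟨p0⟩⟩
  · exact ⟨1, 1, one_pos, one_pos, fun A C _ _ => ⟨1, by simp, fun z _ p => (hP.false p).elim⟩⟩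
  have hδ : ∀ l, δ l ≠ 0 := (hM p0).ne
  obtain ⟨g, bas, dua, hL⟩ := hB3 hδ
  obtain ⟨N, hN, hev, ψ, hψ1, hψ2⟩ := hB6a hL
  obtain ⟨K, hK, hK9⟩ := hT9 (g := g) hN hev
  obtain ⟨n, hn, hn4⟩ := hB4 hδ hL (2 * N ^ 2) (by positivity)
  refine ⟨n, 2 * K, hn, by positivity, ?_⟩
  intro A C hAC hcong
  obtain ⟨MM, hR, hdiv⟩ := hn4 A C hAC.1 hcong
  obtain ⟨J, hJc, hJK, hJlaw⟩ := hK9 MM hR.sp (by
    intro i j
    have := hdiv i j
    push_cast at this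
    exact this)
  have hGU := hB2g hAC
  have hnn : ∀ z ∈ Ball (v0 d), nn (v0 d) z ≠ 0 := by
    intro z hz h0
    have := hB1a hz
    rw [h0] at this
    simp at this
  -- the quotient
  set r : (Fin 2 → ℂ) → ℂ := fun z => nn (v0 d) z /
    ((evm κ v0 A C *ᵥ lift z) 2 ^ 2 * nn (v0 d) (mob (evm κ v0 A C) z)) with hr
  set cc : P × (Fin 2 → ℂ) → ℂ := fun q => J (Zm κ d v0 bas (M q.1) q.2) * r q.2 with hcc
  have hlaw : ∀ z ∈ Ball (v0 d), ∀ p : P,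
      th2 κ d v0 (M p) φ (mob (evm κ v0 A C) z) * (fderiv ℂ (mob (evm κ v0 A C)) z).det =
        cc (p, z) * th2 κ d v0 (M p) φ z := by
    intro z hz p
    have hZ := hB5a hL p hz
    have hz' := (hB2a hGU hz).2
    have hZ' := hB5a hL p hz'
    refine B7b_point (bas := bas) (ψ := ψ) (MM := MM) (gp := evp κ v0 A C)
      (q := (1 / (2 * (Real.pi : ℂ) * I)) * Th N ψ (Zm κ d v0 bas (M p) z) 0)
      (hB6c hL hN hψ1 hψ2 p z hZ) (hB6c hL hN hψ1 hψ2 p _ hZ') (hB5d hL p hz hAC hR)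
      ?_ ?_ (hB5f hL p hz hR) (hB2d hGU hz)
    · intro i k
      exact (hJlaw _ hZ ψ).2 i k
    · intro k l
      have := hB5c hL p hz hR (Pi.single k 1) l
      rw [Matrix.mulVec_single_one] at this
      have e : ∑ i, (Pi.single k (1 : ℂ) : Fin g → ℂ) i • pl v0 (bas i l) = pl v0 (bas k l) := by
        rw [Finset.sum_eq_single k]
        · simp
        · intro i _ hi
          simp [hi]
        · intro h
          exact absurd (Finset.mem_univ k) h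
      rw [e] at this
      exact this
  have hroot : ∀ z ∈ Ball (v0 d), ∀ p : P, cc (p, z) ^ (2 * K) = 1 := by
    intro z hz p
    have hZ := hB5a hL p hz
    have hz' := (hB2a hGU hz).2
    have h1 := hnn z hz
    have h2 := hnn _ hz'
    have h3 := (hB2a hGU hz).1
    simp only [hcc, hr]
    rw [mul_pow, hJK _ hZ, hB5e hL p hz hAC hR]
    rw [← pow_mul, ← mul_pow]
    have e : (evm κ v0 A C *ᵥ lift z) 2 ^ 2 * nn (v0 d) (mob (evm κ v0 A C) z) / nn (v0 d) z *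
        (nn (v0 d) z / ((evm κ v0 A C *ᵥ lift z) 2 ^ 2 * nn (v0 d) (mob (evm κ v0 A C) z))) = 1 := by
      field_simp
    rw [e, one_pow]
  -- continuity
  have hcont : ContinuousOn cc (Set.univ ×ˢ Ball (v0 d)) := by
    have h1 : ContinuousOn (fun q : P × (Fin 2 → ℂ) => J (Zm κ d v0 bas (M q.1) q.2))
        (Set.univ ×ˢ Ball (v0 d)) :=
      hJc.comp (hB5g bas) (fun q hq => hB5a hL q.1 hq.2)
    have hmob : ContinuousOn (mob (evm κ v0 A C)) (Ball (v0 d)) :=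
      B7b_continuousOn_mob _ (fun z hz => (hB2a hGU hz).1)
    have h2 : ContinuousOn r (Ball (v0 d)) := by
      refine ContinuousOn.div (B7b_continuous_nn _).continuousOn ?_ ?_
      · exact ((B7b_continuous_mulVec _ 2).pow 2).continuousOn.mul
          ((B7b_continuous_nn _).comp_continuousOn hmob)
      · intro z hz
        exact mul_ne_zero (pow_ne_zero 2 (hB2a hGU hz).1) (hnn _ (hB2a hGU hz).2)
    exact h1.mul (h2.comp continuousOn_snd (fun q hq => hq.2))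
  have hpre : IsPreconnected ((Set.univ : Set P) ×ˢ Ball (v0 d)) :=
    isPreconnected_univ.prod (B7b_ball_preconnected _)
  -- roots of unity are a finite set
  set T : Set ℂ := {c : ℂ | c ^ (2 * K) = 1} with hT
  have hTfin : T.Finite := by
    have hsub : T ⊆ ((Polynomial.X ^ (2 * K) - Polynomial.C 1 : Polynomial ℂ).roots.toFinset : Set ℂ) := by
      intro c hc
      have hne : (Polynomial.X ^ (2 * K) - Polynomial.C 1 : Polynomial ℂ) ≠ 0 :=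
        Polynomial.X_pow_sub_C_ne_zero (by positivity) 1
      rw [Finset.mem_coe, Multiset.mem_toFinset, Polynomial.mem_roots hne]
      simp only [Polynomial.IsRoot, Polynomial.eval_sub, Polynomial.eval_pow, Polynomial.eval_X,
        Polynomial.eval_C]
      rw [sub_eq_zero]
      exact hc
    exact (Finset.finite_toSet _).subset hsub
  have hmaps : Set.MapsTo cc ((Set.univ : Set P) ×ˢ Ball (v0 d)) T := fun q hq => hroot q.2 hq.2 q.1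
  have h0 : (0 : Fin 2 → ℂ) ∈ Ball (v0 d) := by
    show ‖(0 : Fin 2 → ℂ) 0‖ ^ 2 + ‖(0 : Fin 2 → ℂ) 1‖ ^ 2 < v0 d
    simp [hd.dpos]
  refine ⟨cc (p0, 0), hroot 0 h0 p0, ?_⟩
  intro z hz p
  have hconst : cc (p, z) = cc (p0, 0) :=
    hpre.constant_of_mapsTo hTfin.isDiscrete hcont hmaps (Set.mk_mem_prod (Set.mem_univ _) hz)
      (Set.mk_mem_prod (Set.mem_univ _) h0)
  rw [hlaw z hz p, hconst]

end Pool.Agent.helper76.BQ
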