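import Mathlib
import Pool.Agent.helper76.BQ.TDefs
import Pool.Agent.helper93.BQ.T2b0

/-!
bq:T2b with the statements `den_det_ne` (T2b) and `act_siegel` (T2c) as explicit hypotheses.
-/

open Matrix Complex

namespace Pool.Agent.helper76.BQ

/-- the statement of `den_det_ne` -/
def T2b_hD : Prop := ∀ {g : ℕ} {M : Matrix (Fin g ⊕ Fin g) (Fin g ⊕ Fin g) ℤ} (_ : IsSp M)
    {Z : Matrix (Fin g) (Fin g) ℂ} (_ : IsSiegel Z), (den M Z).det ≠ 0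

/-- the statement of `act_siegel` -/
def T2b_hA : Prop := ∀ {g : ℕ} {M : Matrix (Fin g ⊕ Fin g) (Fin g ⊕ Fin g) ℤ} (_ : IsSp M)
    {Z : Matrix (Fin g) (Fin g) ℂ} (_ : IsSiegel Z), IsSiegel (act M Z)

theorem T2b_den_mul_of (hD : T2b_hD) {g : ℕ} {A B : Matrix (Fin g ⊕ Fin g) (Fin g ⊕ Fin g) ℤ} (_hA : IsSp A)
    (hB : IsSp B) {Z : Matrix (Fin g) (Fin g) ℂ} (hZ : IsSiegel Z) :
    den (A * B) Z = den A (act B Z) * den B Z ∧ act (A * B) Z = act A (act B Z) :=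
  ⟨(T2b_den_mul_core A B (hD hB hZ)).1, T2b_act_mul_core A B (hD hB hZ)⟩

theorem T2b_ex_symm_of (hD : T2b_hD) {g : ℕ} {M : Matrix (Fin g ⊕ Fin g) (Fin g ⊕ Fin g) ℤ} (hM : IsSp M)
    {Z : Matrix (Fin g) (Fin g) ℂ} (hZ : IsSiegel Z) : (ex M Z)ᵀ = ex M Z :=
  T2b_ex_symm_core hM hZ.1 (hD hM hZ)

theorem T2b_ex_mul_of (hD : T2b_hD) (hAc : T2b_hA) {g : ℕ} {A B : Matrix (Fin g ⊕ Fin g) (Fin g ⊕ Fin g) ℤ}
    (hA : IsSp A) (hB : IsSp B) {Z : Matrix (Fin g) (Fin g) ℂ} (hZ : IsSiegel Z) :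
    ex (A * B) Z = ex B Z + (den B Z)⁻¹ * ex A (act B Z) * ((den B Z)⁻¹)ᵀ :=
  T2b_ex_mul_core hB hZ.1 (hD hB hZ) (hD hA (hAc hB hZ)) (hAc hB hZ).1

theorem T2b_act_continuous_of (hD : T2b_hD) {g : ℕ} {M : Matrix (Fin g ⊕ Fin g) (Fin g ⊕ Fin g) ℤ}
    (hM : IsSp M) :
    ContinuousOn (act M) {Z : Matrix (Fin g) (Fin g) ℂ | IsSiegel Z} ∧
      Continuous (den M : Matrix (Fin g) (Fin g) ℂ → Matrix (Fin g) (Fin g) ℂ) :=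
  ⟨T2b_act_continuous_core (fun _ hZ => hD hM hZ), T2b_den_continuous M⟩

end Pool.Agent.helper76.BQ
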